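import Pool.Agent.N813.OE.POLY2

/-!
# Project OE: assembly
-/

set_option autoImplicit false

open scoped Manifold ContDiff Topology
open MeasureTheory Filter Set Metric

universe u v

namespace Pool.Agent.N813.OE

open Pool.Agent.H718R2.G Pool.Agent.W564.SC Pool.Agent.N813.EM Pool.Agent.Y368.CL
  Pool.Agent.TH80.OMS

theorem quantClose (hR4 : S_R4.{v}) (hM33 : S_M33.{v}) {B : Type v} [MetricSpace B]
    [MeasurableSpace B] [BorelSpace B] {μ : Measure B} [IsProbabilityMeasure μ] (g : B ≃ₜ B)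
    (hbl : BiLip g) (hμ : MeasurePreserving g μ μ) (hfin : FinDim B) (hfr : Frost μ)
    (hmix : ExpMix1 g μ) : QuantClose g μ := by
  obtain ⟨C, κ, q, hC, hκ, h2, h3⟩ := hM33 B μ g g.continuous hmix
  obtain ⟨C₀, δ, hδ, hfr'⟩ := hfr
  obtain ⟨C₁, P, hC₁, hret⟩ := R1.t NET.t B μ g g.continuous hfin C κ 1 q hC h2 C₀ δ hδ hfr'
  obtain ⟨Λ, hΛ⟩ := hbl
  exact POLY2.t B μ g ⟨Λ, hΛ⟩ hμ hfin ⟨C₀, δ, hδ, hfr'⟩ C κ q hC hκ h2 h3
    (hR4 B μ g Λ (fun x y => (hΛ x y).1) κ C₁ δ P hκ hδ hC₁ hret)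

theorem quantPer {B : Type v} [MetricSpace B] [MeasurableSpace B] {μ : Measure B} {g : B → B}
    {k : ℕ} {κ : ℝ} (hκ : 0 < κ) (hcl : ClosesUp g k κ) (h : QuantClose g μ) : QuantPer g μ := by
  intro Q
  obtain ⟨C, s₀, hC, hs₀, h⟩ := h (k + 1) Q
  refine ⟨C, min s₀ (κ / 2), hC, by positivity, fun s b hs hss hb => ?_⟩
  obtain ⟨m, z, ρ, hm1, hm, hz, hρ, hρs, h1, h2⟩ := h s b hs (hss.trans (min_le_left _ _)) hb
  have hρκ : ρ < κ := by
    have := hss.trans (min_le_right _ _)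
    linarith
  obtain ⟨x, hx, hxm⟩ := hcl z ρ m hρ hρκ hm1 (h1.trans (by
    rw [pow_succ']
    exact mul_le_mul_of_nonneg_right hρκ.le (by positivity))) h2
  refine ⟨m, x, hm1, hm, ?_, hxm⟩
  have := dist_triangle x z b
  linarith

theorem per_of_polyClose {B : Type v} [MetricSpace B] {g : B → B}
    {k : ℕ} {κ : ℝ} (hκ : 0 < κ) (hcl : ClosesUp g k κ) {z : B} (h : PolyClose g z) :
    z ∈ closure (Per g) := by
  rw [Metric.mem_closure_iff]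
  intro ε hε
  obtain ⟨m, b, ρ, hm, hb, hρ, hρη, h1, h2⟩ := h (k + 1) (min (ε / 2) κ) (by positivity) 1
  have e1 := hρη.trans_le (min_le_left _ _)
  have e2 := hρη.trans_le (min_le_right _ _)
  have e3 := hb.trans_le (min_le_left _ _)
  obtain ⟨x, hx, hxm⟩ := hcl b ρ m hρ e2 hm (h1.trans (by
    rw [pow_succ']
    exact mul_le_mul_of_nonneg_right e2.le (by positivity))) h2
  refine ⟨x, ⟨m, hm, hxm⟩, ?_⟩
  rw [dist_comm]
  have := dist_triangle x b z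
  linarith

/-- the three parts of the theorem -/
theorem main (hR4 : S_R4.{u}) (hM33 : S_M33.{u}) (hGLOB : S_GLOB.{u}) (hCNT : S_CNT.{u}) {n : ℕ}
    {N : Type u} [MetricSpace N] [CompactSpace N] [MeasurableSpace N] [BorelSpace N]
    [ChartedSpace (V n) N] [IsManifold (𝓡 n) ∞ N] (hN : ChartLip n N) {r : ℕ∞} (hr : 1 ≤ r)
    (F : DiffM n N r) (hF : OmegaStable n N r F) :
    (∃ k : ℕ, 1 ≤ k ∧ (k : ℕ∞) ≤ r ∧ ∃ κ : ℝ, 0 < κ ∧ ClosesUp F k κ) ∧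
    (∀ (μ : Measure N) (z : N), MixMeas F μ z → z ∈ closure (Per F)) ∧
    (∀ μ : Measure N, IsProbabilityMeasure μ → MeasurePreserving F μ μ → Frost μ → ExpMix1 F μ →
      ∃ c : ℝ, 0 < c ∧ ∀ z : N, InSupp μ z → ∀ η : ℝ, 0 < η →
        ∀ᶠ j : ℕ in atTop, Real.exp (c * j) ≤ ((PerLe F j ∩ ball z η).ncard : ℝ)) := by
  obtain ⟨k, hk1, hkr, κ, hκ, hcl⟩ := hGLOB n N r hr hN F hF
  have hfin := FIN.t n N hN
  have hbl := bilip BIL.t hN hr F
  refine ⟨⟨k, hk1, hkr, κ, hκ, hcl⟩, fun μ z h => ?_, fun μ h1 h2 h3 h4 => ?_⟩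
  · exact per_of_polyClose hκ hcl (polyClose F.toHomeomorph hfin hbl h)
  · obtain ⟨U, hU, hFU, hfp⟩ := finite_per hr hF
    exact hCNT N μ F hfin h3 (fun m hm => hfp F hFU m hm)
      (quantPer hκ hcl (quantClose hR4 hM33 F.toHomeomorph hbl h2 hfin h3 h4))

end Pool.Agent.N813.OE
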