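import Pool.Agent.N813.OE.Stm

/-!
# Project OE: exponentially many periodic points (part CNT, helper490)
-/

set_option autoImplicit false

open scoped Manifold ContDiff Topology
open MeasureTheory Filter Set Metric

universe u v

namespace Pool.Agent.N813.OE.CNT

open Pool.Agent.N813.EM

/-- the sequence `exp(-a j)` tends to zero -/
lemma tend {a : ℝ} (ha : 0 < a) :
    Tendsto (fun j : ℕ => Real.exp (-(a * (j : ℝ)))) atTop (𝓝 0) := by
  apply Real.tendsto_exp_neg_atTop_nhds_zero.comp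
  exact Tendsto.const_mul_atTop ha tendsto_natCast_atTop_atTop

/-- the points of period at most `j` -/
lemma perLe_finite {B : Type v} {g : B → B}
    (hfin : ∀ m : ℕ, 1 ≤ m → {x | g^[m] x = x}.Finite) (j : ℕ) : (PerLe g j).Finite := by
  have h1 : (⋃ m ∈ Finset.Icc 1 j, {x | g^[m] x = x}).Finite :=
    Set.Finite.biUnion (Finset.finite_toSet _) fun m hm =>
      hfin m (Finset.mem_Icc.1 (Finset.mem_coe.1 hm)).1
  refine h1.subset ?_
  rintro x ⟨m, h2, h3, h4⟩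
  exact Set.mem_biUnion (Finset.mem_coe.2 (Finset.mem_Icc.2 ⟨h2, h3⟩)) h4

/-- the main inequality at one scale -/
lemma scale {B : Type v} [MetricSpace B] [MeasurableSpace B] [BorelSpace B] (μ : Measure B)
    [IsProbabilityMeasure μ] (g : B → B) {C₁ : ℝ} {D : ℕ} (hC₁ : 0 < C₁)
    (hF : ∀ s : ℝ, 0 < s → s ≤ 1 →
      ∃ t : Finset B, (t.card : ℝ) ≤ C₁ * (1 / s) ^ D ∧ ∀ b, ∃ c ∈ t, dist b c ≤ s)
    {C₀ δ : ℝ} (hC₀ : 0 < C₀) (hδ : 0 < δ)
    (hFr : ∀ (b : B) (s : ℝ), 0 < s → μ.real (closedBall b s) ≤ C₀ * s ^ δ)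
    (hfin : ∀ m : ℕ, 1 ≤ m → {x | g^[m] x = x}.Finite) {z : B} {η s : ℝ} (hs : 0 < s)
    (hs1 : s ≤ 1) (hsη : 8 * s ≤ η) (hη : 0 < η) (j : ℕ)
    (hQ : ∀ b : B, s ^ (D + 1) ≤ μ.real (ball b s) →
      ∃ (m : ℕ) (x : B), 1 ≤ m ∧ m ≤ j ∧ dist x b < 4 * s ∧ g^[m] x = x) :
    μ.real (ball z (η / 4)) ≤ C₁ * 2 ^ D * s +
      ((PerLe g j ∩ ball z η).ncard : ℝ) * (C₀ * (5 * s) ^ δ) := by
  classical
  obtain ⟨t, ht1, ht2⟩ := hF (s / 2) (by positivity) (by linarith)
  have hPf : (PerLe g j ∩ ball z η).Finite := (perLe_finite hfin j).subset inter_subset_left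
  set P := hPf.toFinset with hP
  set L := t.filter (fun c => μ.real (ball c s) < s ^ (D + 1)) with hL
  have hcov : ball z (η / 4) ⊆ (⋃ c ∈ L, closedBall c (s / 2)) ∪ ⋃ x ∈ P, closedBall x (5 * s) := by
    intro y hy
    obtain ⟨c, hc, hyc⟩ := ht2 y
    by_cases hl : μ.real (ball c s) < s ^ (D + 1)
    · left
      exact Set.mem_biUnion (Finset.mem_coe.2 (Finset.mem_filter.2 ⟨hc, hl⟩))
        (mem_closedBall.2 hyc)
    · right
      obtain ⟨m, x, h1, h2, h3, h4⟩ := hQ c (not_lt.1 hl)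
      have h5 : dist y z < η / 4 := mem_ball.1 hy
      have h6 : dist x z < η := by
        have h7 : dist x z ≤ dist x c + dist c y + dist y z := dist_triangle4 x c y z
        rw [dist_comm c y] at h7
        linarith
      have h8 : dist y x ≤ 5 * s := by
        have h7 : dist y x ≤ dist y c + dist c x := dist_triangle y c x
        rw [dist_comm c x] at h7
        linarith
      have h9 : x ∈ P := by
        rw [hP, Set.Finite.mem_toFinset]
        exact ⟨⟨m, h1, h2, h4⟩, mem_ball.2 h6⟩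
      exact Set.mem_biUnion (Finset.mem_coe.2 h9) (mem_closedBall.2 h8)
  have e1 : μ.real (ball z (η / 4)) ≤
      ∑ c ∈ L, μ.real (closedBall c (s / 2)) + ∑ x ∈ P, μ.real (closedBall x (5 * s)) := by
    calc μ.real (ball z (η / 4)) ≤
        μ.real ((⋃ c ∈ L, closedBall c (s / 2)) ∪ ⋃ x ∈ P, closedBall x (5 * s)) :=
          measureReal_mono hcov
      _ ≤ μ.real (⋃ c ∈ L, closedBall c (s / 2)) + μ.real (⋃ x ∈ P, closedBall x (5 * s)) :=
          measureReal_union_le _ _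
      _ ≤ _ := add_le_add (measureReal_biUnion_finset_le _ _) (measureReal_biUnion_finset_le _ _)
  have e2 : ∑ c ∈ L, μ.real (closedBall c (s / 2)) ≤ C₁ * 2 ^ D * s := by
    have h1 : ∀ c ∈ L, μ.real (closedBall c (s / 2)) ≤ s ^ (D + 1) := by
      intro c hc
      have h2 : μ.real (closedBall c (s / 2)) ≤ μ.real (ball c s) :=
        measureReal_mono (closedBall_subset_ball (by linarith))
      exact h2.trans (Finset.mem_filter.1 hc).2.le
    have h3 : (L.card : ℝ) ≤ t.card := by exact_mod_cast Finset.card_filter_le _ _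
    calc ∑ c ∈ L, μ.real (closedBall c (s / 2)) ≤ L.card • s ^ (D + 1) :=
          Finset.sum_le_card_nsmul _ _ _ h1
      _ = (L.card : ℝ) * s ^ (D + 1) := nsmul_eq_mul _ _
      _ ≤ (C₁ * (1 / (s / 2)) ^ D) * s ^ (D + 1) :=
          mul_le_mul_of_nonneg_right (h3.trans ht1) (by positivity)
      _ = C₁ * 2 ^ D * s := by
          have h4 : (1 / (s / 2)) ^ D * s ^ D = 2 ^ D := by
            rw [← mul_pow]
            congr 1
            field_simp
          rw [pow_succ]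
          calc C₁ * (1 / (s / 2)) ^ D * (s ^ D * s) = C₁ * ((1 / (s / 2)) ^ D * s ^ D) * s := by
                ring
            _ = _ := by rw [h4]
  have e3 : ∑ x ∈ P, μ.real (closedBall x (5 * s)) ≤
      ((PerLe g j ∩ ball z η).ncard : ℝ) * (C₀ * (5 * s) ^ δ) := by
    calc ∑ x ∈ P, μ.real (closedBall x (5 * s)) ≤ P.card • (C₀ * (5 * s) ^ δ) :=
          Finset.sum_le_card_nsmul _ _ _ fun x _ => hFr x (5 * s) (by positivity)
      _ = (P.card : ℝ) * (C₀ * (5 * s) ^ δ) := nsmul_eq_mul _ _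
      _ = _ := by rw [hP, Set.ncard_eq_toFinset_card _ hPf]
  linarith

theorem t : S_CNT.{v} := by
  intro B _ _ _ μ _ g hF hFr hfin hQ
  obtain ⟨C₁', D, hF⟩ := hF
  obtain ⟨C₀', δ, hδ, hFr⟩ := hFr
  obtain ⟨C, s₀, hC, hs₀, hQ⟩ := hQ (D + 1)
  set C₁ := max C₁' 1 with hC₁
  set C₀ := max C₀' 1 with hC₀
  have hC₁p : 0 < C₁ := lt_of_lt_of_le one_pos (le_max_right _ _)
  have hC₀p : 0 < C₀ := lt_of_lt_of_le one_pos (le_max_right _ _)
  have hF1 : ∀ s : ℝ, 0 < s → s ≤ 1 →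
      ∃ t : Finset B, (t.card : ℝ) ≤ C₁ * (1 / s) ^ D ∧ ∀ b, ∃ c ∈ t, dist b c ≤ s := by
    intro s h1 h2
    obtain ⟨t, h3, h4⟩ := hF s h1 h2
    exact ⟨t, h3.trans (mul_le_mul_of_nonneg_right (le_max_left _ _) (by positivity)), h4⟩
  have hFr1 : ∀ (b : B) (s : ℝ), 0 < s → μ.real (closedBall b s) ≤ C₀ * s ^ δ := by
    intro b s h1
    exact (hFr b s h1).trans (mul_le_mul_of_nonneg_right (le_max_left _ _)
      (Real.rpow_nonneg h1.le _))
  refine ⟨δ / (2 * C), by positivity, fun z hz η hη => ?_⟩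
  set m₀ := μ.real (ball z (η / 4)) with hm₀
  have hm₀p : 0 < m₀ := ENNReal.toReal_pos (hz (η / 4) (by positivity)).ne' (measure_ne_top _ _)
  set K := m₀ / (2 * (C₀ * 5 ^ δ)) with hK
  have h5 : (0 : ℝ) < 5 ^ δ := Real.rpow_pos_of_pos (by norm_num) _
  have hKp : 0 < K := by positivity
  have t1 := tend (a := 1 / C) (by positivity)
  have t2 := tend (a := δ / (2 * C)) (by positivity)
  have v1 : ∀ᶠ j : ℕ in atTop, Real.exp (-(1 / C * (j : ℝ))) < s₀ :=
    t1.eventually_lt_const hs₀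
  have v2 : ∀ᶠ j : ℕ in atTop, Real.exp (-(1 / C * (j : ℝ))) < η / 8 :=
    t1.eventually_lt_const (by positivity)
  have v3 : ∀ᶠ j : ℕ in atTop, Real.exp (-(1 / C * (j : ℝ))) < m₀ / 2 / (C₁ * 2 ^ D) :=
    t1.eventually_lt_const (by positivity)
  have v4 : ∀ᶠ j : ℕ in atTop, Real.exp (-(δ / (2 * C) * (j : ℝ))) < K :=
    t2.eventually_lt_const hKp
  filter_upwards [v1, v2, v3, v4] with j w1 w2 w3 w4
  set s := Real.exp (-(1 / C * (j : ℝ))) with hs
  have hsp : 0 < s := Real.exp_pos _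
  have hs1 : s ≤ 1 := by
    rw [hs, Real.exp_le_one_iff]
    have : 0 ≤ 1 / C * (j : ℝ) := by positivity
    linarith
  have hlog : C * Real.log (1 / s) = j := by
    rw [one_div, Real.log_inv, hs, Real.log_exp]
    field_simp
  have hQ1 : ∀ b : B, s ^ (D + 1) ≤ μ.real (ball b s) →
      ∃ (m : ℕ) (x : B), 1 ≤ m ∧ m ≤ j ∧ dist x b < 4 * s ∧ g^[m] x = x := by
    intro b hb
    obtain ⟨m, x, h1, h2, h3, h4⟩ := hQ s b hsp w1.le hb
    rw [hlog] at h2
    exact ⟨m, x, h1, by exact_mod_cast h2, h3, h4⟩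
  have key := scale μ g hC₁p hF1 hC₀p hδ hFr1 hfin (z := z) (η := η) hsp hs1 (by linarith) hη j
    hQ1
  rw [← hm₀] at key
  have k1 : C₁ * 2 ^ D * s < m₀ / 2 := by
    rw [lt_div_iff₀ (by positivity)] at w3
    linarith [mul_comm s (C₁ * 2 ^ D)]
  set E := Real.exp (δ / (2 * C) * (j : ℝ)) with hE
  set q := Real.exp (-(δ / (2 * C) * (j : ℝ))) with hq
  have hqp : 0 < q := Real.exp_pos _
  have hEq : E * q = 1 := by
    rw [hE, hq, ← Real.exp_add, add_neg_cancel, Real.exp_zero]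
  have k2 : (5 * s) ^ δ = 5 ^ δ * (q * q) := by
    rw [Real.mul_rpow (by norm_num) hsp.le]
    congr 1
    rw [hs, ← Real.exp_mul, hq, ← Real.exp_add]
    congr 1
    field_simp
    ring
  rw [k2] at key
  by_contra hcon
  push Not at hcon
  have k3 : ((PerLe g j ∩ ball z η).ncard : ℝ) * (C₀ * (5 ^ δ * (q * q))) ≤
      E * (C₀ * (5 ^ δ * (q * q))) :=
    mul_le_mul_of_nonneg_right hcon.le (by positivity)
  have k4 : E * (C₀ * (5 ^ δ * (q * q))) = (C₀ * 5 ^ δ) * q := by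
    calc E * (C₀ * (5 ^ δ * (q * q))) = (E * q) * ((C₀ * 5 ^ δ) * q) := by ring
      _ = _ := by rw [hEq, one_mul]
  have k5 : (C₀ * 5 ^ δ) * q < (C₀ * 5 ^ δ) * K :=
    mul_lt_mul_of_pos_left w4 (by positivity)
  have k6 : (C₀ * 5 ^ δ) * K = m₀ / 2 := by
    rw [hK]
    field_simp
  linarith

end Pool.Agent.N813.OE.CNT
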