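import Pool.Agent.N813.EM.DefsF
import Pool.Agent.R773.FC.Loc

/-!
# Project OE: `Ω`-stable diffeomorphisms, closing of orbits and mixing measures (definitions)

`DiffM n N r = Diff^r(N)`, `OmegaStable`, `Per F`, `GoodChart`, `ChartLip`, `FinDim`, `Frost`, `M2`,
`M3`, `ret`: as in project EM and in `Pool/Agent/TH80/OMS/Defs.lean`.
-/

set_option autoImplicit false

open scoped Manifold ContDiff Topology
open MeasureTheory Filter Set Metric

universe u v

namespace Pool.Agent.N813.OE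

open Pool.Agent.H718R2.G Pool.Agent.W564.SC Pool.Agent.N813.EM Pool.Agent.Y368.CL
  Pool.Agent.TH80.OMS

/-- The periodic points of `F` which have a period at most `n`. -/
def PerLe {N : Type*} (F : N → N) (n : ℕ) : Set N := {x | ∃ m, 1 ≤ m ∧ m ≤ n ∧ F^[m] x = x}

/-- Close returns are near periodic points of the same period: if the orbit of `z` returns at the
time `m` to the distance `κ ρ^k`, and has not returned to the distance `ρ` before, then there is a
point `x` at a distance less than `ρ` of `z` with `F^m x = x`. -/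
def ClosesUp {N : Type*} [MetricSpace N] (F : N → N) (k : ℕ) (κ : ℝ) : Prop :=
  ∀ (z : N) (ρ : ℝ) (m : ℕ), 0 < ρ → ρ < κ → 1 ≤ m → dist (F^[m] z) z ≤ κ * ρ ^ k →
    (∀ i, 0 < i → i < m → ρ ≤ dist (F^[i] z) z) → ∃ x, dist x z < ρ ∧ F^[m] x = x

/-- Exponential mixing of order three (Lipschitz functions, rate `exp(-κ min(i, j))`). -/
def ExpMix1 {B : Type v} [MetricSpace B] [MeasurableSpace B] (g : B → B) (μ : Measure B) : Prop :=
  ∃ (C κ : ℝ) (q : ℕ), 0 < κ ∧ M3 g μ C κ 1 q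

/-- The returns of order `m ≥ 1` to distance `s` have measure at most `C s^γ`. -/
def SmallRet {B : Type v} [MetricSpace B] [MeasurableSpace B] (g : B → B) (μ : Measure B) : Prop :=
  ∃ C γ : ℝ, 0 < C ∧ 0 < γ ∧ ∀ (m : ℕ) (s : ℝ), 1 ≤ m → 0 < s → s ≤ 1 → ret g μ m s ≤ C * s ^ γ

/-- Quantitative form of `PolyClose` at all points which are not too light. -/
def QuantClose {B : Type v} [MetricSpace B] [MeasurableSpace B] (g : B → B) (μ : Measure B) :
    Prop :=
  ∀ A Q : ℕ, ∃ C s₀ : ℝ, 0 < C ∧ 0 < s₀ ∧ ∀ (s : ℝ) (b : B), 0 < s → s ≤ s₀ →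
    s ^ Q ≤ μ.real (ball b s) → ∃ (m : ℕ) (z : B) (ρ : ℝ), 1 ≤ m ∧ (m : ℝ) ≤ C * Real.log (1 / s) ∧
      dist z b < 2 * s ∧ 0 < ρ ∧ ρ ≤ s ∧ dist (g^[m] z) z ≤ ρ ^ A ∧
      ∀ i, 0 < i → i < m → ρ ≤ dist (g^[i] z) z

/-- Periodic points near all points which are not too light. -/
def QuantPer {B : Type v} [MetricSpace B] [MeasurableSpace B] (g : B → B) (μ : Measure B) : Prop :=
  ∀ Q : ℕ, ∃ C s₀ : ℝ, 0 < C ∧ 0 < s₀ ∧ ∀ (s : ℝ) (b : B), 0 < s → s ≤ s₀ →
    s ^ Q ≤ μ.real (ball b s) → ∃ (m : ℕ) (x : B), 1 ≤ m ∧ (m : ℝ) ≤ C * Real.log (1 / s) ∧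
      dist x b < 4 * s ∧ g^[m] x = x

/-- `z` lies in the support of `μ`. -/
def InSupp {B : Type v} [MetricSpace B] [MeasurableSpace B] (μ : Measure B) (z : B) : Prop :=
  ∀ η : ℝ, 0 < η → 0 < μ (ball z η)

end Pool.Agent.N813.OE
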