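import Pool.Agent.N813.OE.Stm
import Pool.Agent.W699.SC.GC

/-!
# Project OE, part GLOB: the closing property, uniformly on the manifold
-/

set_option autoImplicit false

open scoped Manifold ContDiff Topology
open MeasureTheory Filter Set Metric

universe u v

namespace Pool.Agent.N813.OE.GLOB

open Pool.Agent.H718R2.G Pool.Agent.W564.SC Pool.Agent.N813.EM Pool.Agent.Y368.CL
  Pool.Agent.TH80.OMS

/-- the closing property at the points of `s` -/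
def Cl {N : Type u} [MetricSpace N] (F : N → N) (s : Set N) (k : ℕ) (κ : ℝ) : Prop :=
  ∀ z ∈ s, ∀ (ρ : ℝ) (m : ℕ), 0 < ρ → ρ < κ → 1 ≤ m → dist (F^[m] z) z ≤ κ * ρ ^ k →
    (∀ i, 0 < i → i < m → ρ ≤ dist (F^[i] z) z) → ∃ x, dist x z < ρ ∧ F^[m] x = x

theorem Cl.mono {N : Type u} [MetricSpace N] {F : N → N} {s : Set N} {k k' : ℕ} {κ κ' : ℝ}
    (h : Cl F s k κ) (hk : k ≤ k') (h0 : 0 < κ') (h1 : κ' ≤ κ) (h2 : κ' ≤ 1) :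
    Cl F s k' κ' := by
  intro z hz ρ m hρ hρκ hm hd hi
  refine h z hz ρ m hρ (hρκ.trans_le h1) hm (hd.trans ?_) hi
  have h3 : ρ ^ k' ≤ ρ ^ k := pow_le_pow_of_le_one hρ.le (hρκ.le.trans h2) hk
  have h4 : 0 < ρ ^ k' := by positivity
  nlinarith

/-- one chart -/
theorem chart {N : Type u} [MetricSpace N] {W : Type} [NormedAddCommGroup W]
    (χ : OpenPartialHomeomorph N W) (F : N → N) (L δ κ : ℝ) (k : ℕ) (hL : 1 ≤ L) (hδ : 0 < δ)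
    (hκ : 0 < κ)
    (hLip : ∀ y ∈ χ.source, ∀ y' ∈ χ.source, ‖χ y‖ ≤ 1 / 2 → ‖χ y'‖ ≤ 1 / 2 →
      dist y y' ≤ L * ‖χ y - χ y'‖ ∧ ‖χ y - χ y'‖ ≤ L * dist y y')
    (hcl : ∀ y ∈ χ.source, ‖χ y‖ ≤ 1 / 4 → ∀ y', dist y y' < δ → y' ∈ χ.source ∧ ‖χ y'‖ < 1 / 2)
    (hloc : ∀ (z : N) (ρ : ℝ) (m : ℕ), z ∈ χ.source →
      ‖χ z‖ < κ → 0 < ρ → ρ < κ → 1 ≤ m → F^[m] z ∈ χ.source →
      ‖χ (F^[m] z) - χ z‖ ≤ κ * ρ ^ k →
      (∀ i, 0 < i → i < m → F^[i] z ∈ χ.source → 2 * ρ ≤ ‖χ (F^[i] z) - χ z‖) →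
      ∃ x ∈ χ.source, ‖χ x - χ z‖ < 2 * ρ ∧ F^[m] x = x) :
    ∃ κ' : ℝ, 0 < κ' ∧ κ' ≤ 1 ∧ Cl F {y | y ∈ χ.source ∧ ‖χ y‖ < min κ (1 / 4)} k κ' := by
  have hL0 : 0 < L := by linarith
  set κ' : ℝ := min (min κ (1 / 2)) (min (δ / 2) (κ / (L * (4 * L) ^ k))) with hκ'
  have h1 : κ' ≤ κ := (min_le_left _ _).trans (min_le_left _ _)
  have h2 : κ' ≤ 1 / 2 := (min_le_left _ _).trans (min_le_right _ _)
  have h3 : κ' ≤ δ / 2 := (min_le_right _ _).trans (min_le_left _ _)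
  have h4 : κ' ≤ κ / (L * (4 * L) ^ k) := (min_le_right _ _).trans (min_le_right _ _)
  have h0 : 0 < κ' := by positivity
  refine ⟨κ', h0, by linarith, ?_⟩
  rintro z ⟨hz, hz1⟩ ρ m hρ hρκ hm hd hi
  have hz2 : ‖χ z‖ < κ := hz1.trans_le (min_le_left _ _)
  have hz3 : ‖χ z‖ < 1 / 4 := hz1.trans_le (min_le_right _ _)
  set ρ₁ : ℝ := ρ / (4 * L) with hρ₁
  have hρ₁0 : 0 < ρ₁ := by positivity
  have hρe : ρ = 4 * L * ρ₁ := by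
    rw [hρ₁]
    field_simp
  have hρ1 : ρ ^ k ≤ 1 := pow_le_one₀ hρ.le (by linarith)
  have hρk : 0 < ρ ^ k := by positivity
  have hdδ : dist z (F^[m] z) < δ := by
    rw [dist_comm]
    nlinarith
  obtain ⟨hm1, hm2⟩ := hcl z hz hz3.le _ hdδ
  have e1 : ‖χ (F^[m] z) - χ z‖ ≤ κ * ρ₁ ^ k := by
    have e2 := (hLip _ hm1 z hz hm2.le (by linarith)).2
    have e3 : L * (κ' * ρ ^ k) ≤ κ * ρ₁ ^ k := by
      rw [le_div_iff₀ (by positivity)] at h4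
      calc L * (κ' * ρ ^ k) = κ' * (L * (4 * L) ^ k) * ρ₁ ^ k := by rw [hρe, mul_pow]; ring
        _ ≤ κ * ρ₁ ^ k := by gcongr
    refine e2.trans (le_trans ?_ e3)
    gcongr
  have e2 : ρ₁ ≤ ρ := by
    rw [hρ₁]
    exact div_le_self hρ.le (by linarith)
  have e3 : 2 * ρ₁ ≤ 1 / 4 := by nlinarith
  obtain ⟨x, hx, hx1, hx2⟩ := hloc z ρ₁ m hz hz2 hρ₁0 (by linarith) hm hm1 e1 (by
    intro i hi0 him hiz
    by_cases h5 : ‖χ (F^[i] z)‖ ≤ 1 / 2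
    · have e4 := (hLip _ hiz z hz h5 (by linarith)).1
      have e5 := hi i hi0 him
      have e6 : 4 * L * ρ₁ ≤ L * ‖χ (F^[i] z) - χ z‖ := by
        rw [← hρe]
        exact e5.trans e4
      have e7 : 4 * ρ₁ ≤ ‖χ (F^[i] z) - χ z‖ := by
        by_contra hcon
        push Not at hcon
        nlinarith
      linarith
    · push Not at h5
      have e4 : ‖χ (F^[i] z)‖ ≤ ‖χ (F^[i] z) - χ z‖ + ‖χ z‖ := by
        have := norm_add_le (χ (F^[i] z) - χ z) (χ z)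
        rwa [sub_add_cancel] at this
      linarith)
  refine ⟨x, ?_, hx2⟩
  have e4 : ‖χ x‖ ≤ ‖χ x - χ z‖ + ‖χ z‖ := by
    have := norm_add_le (χ x - χ z) (χ z)
    rwa [sub_add_cancel] at this
  have e5 := (hLip x hx z hz (by linarith) (by linarith)).1
  calc dist x z ≤ L * ‖χ x - χ z‖ := e5
    _ ≤ L * (2 * ρ₁) := by gcongr
    _ < ρ := by
        rw [hρe]
        nlinarith

/-- compactness -/
theorem cpt {N : Type u} [MetricSpace N] [CompactSpace N] (F : N → N) (r : ℕ∞) (hr : 1 ≤ r)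
    (h : ∀ z₀ : N, ∃ s ∈ 𝓝 z₀, ∃ k : ℕ, 1 ≤ k ∧ (k : ℕ∞) ≤ r ∧ ∃ κ : ℝ, 0 < κ ∧ κ ≤ 1 ∧
      Cl F s k κ) :
    ∃ k : ℕ, 1 ≤ k ∧ (k : ℕ∞) ≤ r ∧ ∃ κ : ℝ, 0 < κ ∧ κ ≤ 1 ∧ Cl F univ k κ := by
  refine isCompact_univ.induction_on (p := fun s : Set N => ∃ k : ℕ, 1 ≤ k ∧ (k : ℕ∞) ≤ r ∧
    ∃ κ : ℝ, 0 < κ ∧ κ ≤ 1 ∧ Cl F s k κ) ?_ ?_ ?_ ?_
  · exact ⟨1, le_rfl, by exact_mod_cast hr, 1, one_pos, le_rfl, fun z hz => absurd hz (by simp)⟩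
  · rintro s t hst ⟨k, hk, hkr, κ, hκ, hκ1, h1⟩
    exact ⟨k, hk, hkr, κ, hκ, hκ1, fun z hz => h1 z (hst hz)⟩
  · rintro s t ⟨k, hk, hkr, κ, hκ, hκ1, h1⟩ ⟨k', hk', hkr', κ', hκ', hκ1', h1'⟩
    refine ⟨max k k', le_max_of_le_left hk, ?_, min κ κ', lt_min hκ hκ', (min_le_left _ _).trans hκ1,
      ?_⟩
    · rcases max_choice k k' with h2 | h2 <;> rw [h2]
      · exact hkr
      · exact hkr'
    · have h2 := h1.mono (le_max_left k k') (lt_min hκ hκ') (min_le_left _ _)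
        ((min_le_left _ _).trans hκ1)
      have h3 := h1'.mono (le_max_right k k') (lt_min hκ hκ') (min_le_right _ _)
        ((min_le_left _ _).trans hκ1)
      rintro z (hz | hz)
      · exact h2 z hz
      · exact h3 z hz
  · intro z₀ _
    obtain ⟨s, hs, h1⟩ := h z₀
    exact ⟨s, by rwa [nhdsWithin_univ], h1⟩

theorem t (hLOC : S_LOC.{u}) : S_GLOB.{u} := by
  intro n N _ _ _ _ r hr hN F hF
  have h : ∀ z₀ : N, ∃ s ∈ 𝓝 z₀, ∃ k : ℕ, 1 ≤ k ∧ (k : ℕ∞) ≤ r ∧ ∃ κ : ℝ, 0 < κ ∧ κ ≤ 1 ∧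
      Cl F s k κ := by
    intro z₀
    obtain ⟨χ, hχ⟩ := Pool.Agent.W699.SC.gc n N z₀
    obtain ⟨L, hL, hLip⟩ := hN χ z₀ hχ
    obtain ⟨δ, hδ, hclose⟩ := unif_close hχ
    obtain ⟨k, hk, hkr, κ, hκ, h1⟩ := hLOC n N r hr F hF χ z₀ hχ
    obtain ⟨κ', h2, h3, h4⟩ := chart χ F (max L 1) δ κ k (le_max_right _ _) hδ hκ (by
      intro y hy y' hy' h5 h6
      obtain ⟨h7, h8⟩ := hLip y hy y' hy' h5 h6
      exact ⟨h7.trans (mul_le_mul_of_nonneg_right (le_max_left _ _) (norm_nonneg _)),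
        h8.trans (mul_le_mul_of_nonneg_right (le_max_left _ _) dist_nonneg)⟩) hclose h1
    refine ⟨_, ?_, k, hk, hkr, κ', h2, h3, h4⟩
    have h5 : ∀ᶠ y in 𝓝 z₀, ‖χ y‖ < min κ (1 / 4) := by
      refine (χ.continuousAt hχ.src).norm.eventually_lt_const ?_
      beta_reduce
      rw [hχ.zero, norm_zero]
      positivity
    filter_upwards [χ.open_source.mem_nhds hχ.src, h5] with y h6 h7
    exact ⟨h6, h7⟩
  obtain ⟨k, hk, hkr, κ, hκ, -, h1⟩ := cpt F r hr h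
  exact ⟨k, hk, hkr, κ, hκ, fun z => h1 z (mem_univ z)⟩

end Pool.Agent.N813.OE.GLOB
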