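import Pool.Agent.N813.OE.Stm

/-!
# Project OE: close returns of `Ω`-stable diffeomorphisms, in a chart

(helper558 for helper813; merges `lclosable_of_retK` and `per_of_lclosable` of
`Pool/Agent/R773/FC/Loc.lean`.)
-/

set_option autoImplicit false
set_option linter.unusedSectionVars false

open scoped Manifold ContDiff Topology
open Filter Set Metric

universe u

namespace Pool.Agent.N813.OE.LOC

open Pool.Agent.H718R2.G Pool.Agent.W564.SC Pool.Agent.R773.FC Pool.Agent.TH80.OMS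

theorem t : S_LOC.{u} := by
  intro n N _ _ _ _ _ r hr F hF χ z₀ hχ
  obtain ⟨U₁, hU₁, hFU₁, hfin⟩ := finite_per hr hF
  obtain ⟨U₀, hU₀, hFU₀, hconj⟩ := hF
  have hU : IsOpen[strongTop n N r] (U₀ ∩ U₁) := @IsOpen.inter _ (strongTop n N r) _ _ hU₀ hU₁
  obtain ⟨k, hk1, hkr, κ₀, hκ₀, hN⟩ := t_NBHD n N r hr ℝ (fun _ => F) (isFam_const F) χ z₀ hχ
    (U₀ ∩ U₁) hU ⟨hFU₀, hFU₁⟩
  obtain ⟨C, hC, hB⟩ := Pool.Agent.W271.SC.bump n k hk1
  obtain ⟨κ, k0, k1, k2, k3, k4⟩ : ∃ κ : ℝ, 0 < κ ∧ κ ≤ κ₀ ∧ κ ≤ 1 / 16 ∧ κ ≤ κ₀ / C ∧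
      κ ≤ 1 / (2 * C) :=
    ⟨min (min κ₀ (1 / 16)) (min (κ₀ / C) (1 / (2 * C))), by positivity,
      (min_le_left _ _).trans (min_le_left _ _), (min_le_left _ _).trans (min_le_right _ _),
      (min_le_right _ _).trans (min_le_left _ _), (min_le_right _ _).trans (min_le_right _ _)⟩
  refine ⟨k, hk1, hkr, κ, k0, ?_⟩
  intro z' ρ m hz' hz'n hρ hρκ hm hsrc hw hi
  set v := χ z' with hv
  set w := χ (F^[m] z') - v with hwdef
  have hρk : 0 < ρ ^ k := pow_pos hρ k
  have hρ1 : ρ ≤ 1 := by linarith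
  have hρk' : ρ ^ k ≤ ρ := by
    calc ρ ^ k ≤ ρ ^ 1 := pow_le_pow_of_le_one hρ.le hρ1 hk1
      _ = ρ := pow_one ρ
  have hwρ : ‖w‖ ≤ ρ := by
    refine hw.trans ?_
    calc κ * ρ ^ k ≤ 1 * ρ ^ k := by gcongr; linarith
      _ = ρ ^ k := one_mul _
      _ ≤ ρ := hρk'
  obtain ⟨u, hu, huw, hu0⟩ := hB ρ hρ (by linarith) _ hwρ
  have hq : ‖w‖ / ρ ^ k ≤ κ := by
    rw [div_le_iff₀ hρk]; exact hw
  have hc1 : C * (‖w‖ / ρ ^ k) ≤ κ₀ := by
    calc C * (‖w‖ / ρ ^ k) ≤ C * (κ₀ / C) :=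
          mul_le_mul_of_nonneg_left (hq.trans k3) hC.le
      _ = κ₀ := by field_simp
  have hc2 : C * (‖w‖ / ρ ^ k) ≤ 1 / 2 := by
    calc C * (‖w‖ / ρ ^ k) ≤ C * (1 / (2 * C)) :=
          mul_le_mul_of_nonneg_left (hq.trans k4) hC.le
      _ = 1 / 2 := by field_simp
  have hsh := small_shift (v := v) hu hu0 (by linarith)
  obtain ⟨Θ, hΘ⟩ := Pool.Agent.W428.SC.push n N r χ z₀ hχ (fun x => u (x - v))
    (small_mono hsh hk1 hc2)
  have hGU := hN 0 (fun x => u (x - v)) Θ (by rw [norm_zero]; exact hκ₀)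
    (small_mono hsh le_rfl hc1) hΘ
  have hG : ∀ y, (F.trans Θ) y = Θ (F y) := fun y => rfl
  have hfix : ∀ y, (y ∈ χ.source → 2 * ρ ≤ ‖χ y - v‖) → Θ y = y := by
    intro y hy
    by_cases hys : y ∈ χ.source
    · obtain ⟨a, b⟩ := hΘ.1 _ hys
      have b1 : χ (Θ y) = χ y + u (χ y - v) := b
      rw [hu0 _ (hy hys), add_zero] at b1
      exact χ.injOn a hys b1
    · exact hΘ.2 _ hys
  have hmz : (⇑(F.trans Θ))^[m] z' = z' := by
    have key : ∀ i, i < m → (⇑(F.trans Θ))^[i] z' = F^[i] z' := by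
      intro i
      induction i with
      | zero => intro _; rfl
      | succ i ih =>
        intro him
        rw [Function.iterate_succ_apply', ih (by omega), hG, ← Function.iterate_succ_apply' F]
        exact hfix _ (hi (i + 1) (Nat.succ_pos i) him)
    obtain ⟨m', rfl⟩ : ∃ m', m = m' + 1 := ⟨m - 1, by omega⟩
    rw [Function.iterate_succ_apply', key m' (by omega), hG, ← Function.iterate_succ_apply' F]
    obtain ⟨a, b⟩ := hΘ.1 _ hsrc
    apply χ.injOn a hz'
    have b' : χ (Θ (F^[m' + 1] z')) = χ (F^[m' + 1] z') + u w := b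
    rw [b', huw, hwdef]
    abel
  by_contra hno
  push Not at hno
  have hsub : {x | F^[m] x = x} ⊆ {x | (⇑(F.trans Θ))^[m] x = x} := by
    intro x hx
    have hx' : F^[m] x = x := hx
    have hper : ∀ i : ℕ, F^[m] (F^[i] x) = F^[i] x := by
      intro i
      rw [← Function.iterate_add_apply, add_comm, Function.iterate_add_apply, hx']
    have key : ∀ i : ℕ, (⇑(F.trans Θ))^[i] x = F^[i] x := by
      intro i
      induction i with
      | zero => rfl
      | succ i ih =>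
        rw [Function.iterate_succ_apply', ih, hG, ← Function.iterate_succ_apply' F]
        apply hfix
        intro hs
        by_contra hcon
        push Not at hcon
        exact hno _ hs hcon (hper (i + 1))
    show (⇑(F.trans Θ))^[m] x = x
    rw [key m, hx']
  have hne : {x | F^[m] x = x} ⊂ {x | (⇑(F.trans Θ))^[m] x = x} := by
    refine ⟨hsub, fun h => ?_⟩
    have h1 : z' ∈ {x | F^[m] x = x} := h hmz
    refine hno z' hz' ?_ h1
    rw [← hv, sub_self, norm_zero]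
    linarith
  have h1 := Set.ncard_lt_ncard hne (hfin (F.trans Θ) hGU.2 m hm)
  have h2 := Pool.Agent.Y504.CO.ncard_conj F.continuous (F.trans Θ).continuous
    (hconj (F.trans Θ) hGU.1) hm
  omega

end Pool.Agent.N813.OE.LOC
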