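import Pool.Agent.N813.OE.Stm

/-!
# Mixing of order three implies mixing of order two, the rate is kept (helper227, project OE;
the proof is the one of helper55 in `Pool/Agent/N813/EM/M32.lean` with `β = 1`)
-/

set_option autoImplicit false

open MeasureTheory Filter Set Metric
open scoped Topology

universe v

noncomputable section

namespace Pool.Agent.N813.OE.M33

open Pool.Agent.N813.EM

theorem t : S_M33.{v} := by
  intro B _ _ _ μ _ g hg hE
  obtain ⟨C0, κ0, q, hκ0, h3⟩ := hE
  obtain ⟨β, hβe⟩ : ∃ β : ℝ, β = 1 := ⟨1, rfl⟩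
  rw [← hβe] at h3
  suffices hmain : ∃ (C κ : ℝ) (q : ℕ), 1 ≤ C ∧ 0 < κ ∧ M2 g μ C κ β q ∧ M3 g μ C κ β q by
    rw [hβe] at hmain
    exact hmain
  have hβ : 0 < β := by rw [hβe]; norm_num
  have hβ1 : β ≤ 1 := by rw [hβe]
  have hκ : 0 < κ0 / 3 := by positivity
  refine ⟨max |C0| (Real.exp (κ0 / 3)), κ0 / 3, q, ?_, hκ, ?_, ?_⟩
  · exact (Real.one_le_exp hκ.le).trans (le_max_right _ _)
  · intro L u w hL hu hw m
    have hLq : 1 ≤ L ^ q := one_le_pow₀ hL
    have hL0 : 0 ≤ L := by linarith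
    have h1 : Obs L (fun _ : B => (1 : ℝ)) := by
      refine ⟨fun _ => ⟨zero_le_one, le_rfl⟩, fun x y => ?_⟩
      rw [sub_self, abs_zero]
      exact mul_nonneg hL0 dist_nonneg
    rcases Nat.lt_or_ge m 2 with hm | hm
    · -- the trivial bound
      have a1 : 0 ≤ ∫ x, u x * w (g^[m] x) ∂μ :=
        MeasureTheory.integral_nonneg fun x => mul_nonneg (hu.1 x).1 (hw.1 _).1
      have a2 : ∫ x, u x * w (g^[m] x) ∂μ ≤ 1 := by
        have hi : Integrable (fun x => u x * w (g^[m] x)) μ := by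
          refine Integrable.of_bound (hu.continuous.mul
            (hw.continuous.comp (hg.iterate m))).aestronglyMeasurable 1
            (Eventually.of_forall fun x => ?_)
          rw [Real.norm_eq_abs, abs_of_nonneg (mul_nonneg (hu.1 x).1 (hw.1 _).1)]
          exact mul_le_one₀ (hu.1 x).2 (hw.1 _).1 (hw.1 _).2
        have h1 : ∫ x, u x * w (g^[m] x) ∂μ ≤ ∫ _, (1 : ℝ) ∂μ :=
          integral_mono hi (integrable_const _)
            fun x => mul_le_one₀ (hu.1 x).2 (hw.1 _).1 (hw.1 _).2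
        simpa using h1
      have b1 : 0 ≤ (∫ x, u x ∂μ) * ∫ x, w x ∂μ := mul_nonneg hu.integral_nonneg hw.integral_nonneg
      have b2 : (∫ x, u x ∂μ) * ∫ x, w x ∂μ ≤ 1 :=
        mul_le_one₀ hu.integral_le_one hw.integral_nonneg hw.integral_le_one
      have c1 : |∫ x, u x * w (g^[m] x) ∂μ - (∫ x, u x ∂μ) * ∫ x, w x ∂μ| ≤ 1 := by
        rw [abs_le]
        constructor <;> linarith
      refine c1.trans ?_
      have d1 : (m : ℝ) ^ β ≤ 1 := by
        apply Real.rpow_le_one (Nat.cast_nonneg _) _ hβ.le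
        exact_mod_cast (by omega : m ≤ 1)
      have d2 : Real.exp (-(κ0 / 3)) ≤ Real.exp (-(κ0 / 3 * (m : ℝ) ^ β)) := by
        apply Real.exp_le_exp.2
        have := mul_le_mul_of_nonneg_left d1 hκ.le
        linarith
      have d3 : Real.exp (κ0 / 3) * Real.exp (-(κ0 / 3)) = 1 := by
        rw [← Real.exp_add, add_neg_cancel, Real.exp_zero]
      calc (1 : ℝ) = Real.exp (κ0 / 3) * 1 * Real.exp (-(κ0 / 3)) := by rw [mul_one, d3]
        _ ≤ max |C0| (Real.exp (κ0 / 3)) * L ^ q * Real.exp (-(κ0 / 3 * (m : ℝ) ^ β)) := by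
          apply mul_le_mul _ d2 (Real.exp_pos _).le (by positivity)
          exact mul_le_mul (le_max_right _ _) hLq zero_le_one (by positivity)
    · have h := h3 L u (fun _ => 1) w hL hu h1 hw (m / 2) (m - m / 2)
      have e1 : m / 2 + (m - m / 2) = m := by omega
      have e2 : min (m / 2) (m - m / 2) = m / 2 := by omega
      rw [e1, e2] at h
      have e3 : ∫ _ : B, (1 : ℝ) ∂μ = 1 := by simp
      rw [e3, mul_one] at h
      simp only [mul_one] at h
      refine h.trans ?_
      have f1 : (m : ℝ) / 3 ≤ ((m / 2 : ℕ) : ℝ) := by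
        rw [div_le_iff₀ (by norm_num)]
        exact_mod_cast (by omega : m ≤ m / 2 * 3)
      have f2 : (m : ℝ) ^ β / 3 ≤ ((m / 2 : ℕ) : ℝ) ^ β := by
        refine le_trans ?_ (Real.rpow_le_rpow (by positivity) f1 hβ.le)
        rw [Real.div_rpow (Nat.cast_nonneg _) (by norm_num)]
        apply div_le_div_of_nonneg_left (by positivity) (by positivity)
        calc (3 : ℝ) ^ β ≤ (3 : ℝ) ^ (1 : ℝ) :=
              Real.rpow_le_rpow_of_exponent_le (by norm_num) hβ1
          _ = 3 := Real.rpow_one 3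
      have f3 : Real.exp (-(κ0 * ((m / 2 : ℕ) : ℝ) ^ β)) ≤ Real.exp (-(κ0 / 3 * (m : ℝ) ^ β)) := by
        apply Real.exp_le_exp.2
        have := mul_le_mul_of_nonneg_left f2 hκ0.le
        have e : κ0 / 3 * (m : ℝ) ^ β = κ0 * ((m : ℝ) ^ β / 3) := by ring
        rw [e]
        linarith
      apply mul_le_mul _ f3 (Real.exp_pos _).le (by positivity)
      exact mul_le_mul_of_nonneg_right ((le_abs_self _).trans (le_max_left _ _)) (by positivity)
  · intro L u v w hL hu hv hw i j
    refine (h3 L u v w hL hu hv hw i j).trans ?_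
    have hL0 : 0 ≤ L := by linarith
    have f3 : Real.exp (-(κ0 * ((min i j : ℕ) : ℝ) ^ β)) ≤
        Real.exp (-(κ0 / 3 * ((min i j : ℕ) : ℝ) ^ β)) := by
      apply Real.exp_le_exp.2
      have h0 : 0 ≤ ((min i j : ℕ) : ℝ) ^ β := by positivity
      nlinarith
    apply mul_le_mul _ f3 (Real.exp_pos _).le (by positivity)
    exact mul_le_mul_of_nonneg_right ((le_abs_self _).trans (le_max_left _ _)) (by positivity)

end Pool.Agent.N813.OE.M33
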