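import Pool.Agent.N813.OE.Stm
import Pool.Agent.N813.EM.R23

/-!
# Project OE (helper813), part R4 (helper163): small returns at all times
-/

set_option autoImplicit false

open MeasureTheory Filter Set Metric
open scoped Topology

universe v

noncomputable section

namespace Pool.Agent.N813.OE.R4

open Pool.Agent.N813.EM

/-- **R4.** -/
theorem t : S_R4.{v} := by
  intro B _ _ _ μ _ g Λ hg κ C₁ δ P hκ hδ hC hret
  have h1 : (1 : ℝ) ≤ max Λ 1 := le_max_right _ _
  have hg' : ∀ x y, dist (g x) (g y) ≤ max Λ 1 * dist x y := fun x y =>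
    (hg x y).trans (mul_le_mul_of_nonneg_right (le_max_left _ _) dist_nonneg)
  generalize max Λ 1 = Λ' at h1 hg'
  obtain ⟨l, hl0, hl⟩ : ∃ l : ℝ, 0 ≤ l ∧ Λ' = Real.exp l :=
    ⟨Real.log Λ', Real.log_nonneg h1, (Real.exp_log (by linarith)).symm⟩
  obtain ⟨c, hc⟩ : ∃ c : ℝ, c = (P + δ) / κ := ⟨_, rfl⟩
  have hc0 : 0 < c := by rw [hc]; positivity
  have hcκ : κ * c = P + δ := by rw [hc]; field_simp
  obtain ⟨θ, hθ⟩ : ∃ θ : ℝ, θ = 1 / (2 * (1 + 2 * c * l)) := ⟨_, rfl⟩
  have hD : 0 < 1 + 2 * c * l := by positivity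
  have hθ0 : 0 < θ := by rw [hθ]; positivity
  have hθ1 : θ * (1 + 2 * c * l) = 1 / 2 := by rw [hθ]; field_simp
  -- late times
  have late : ∀ (L : ℝ) (m : ℕ), 0 ≤ L → c * θ * L ≤ m →
      ret g μ m (Real.exp (-(θ * L))) ≤ 2 * C₁ * Real.exp (-(θ * δ * L)) := by
    intro L m hL hm
    have h2 := hret m (Real.exp (-(θ * L))) (Real.exp_pos _)
      (Real.exp_le_one_iff.2 (by have := mul_nonneg hθ0.le hL; linarith))
    rw [Real.rpow_one, one_div, ← Real.exp_neg, neg_neg, ← Real.exp_nat_mul, ← Real.exp_add,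
      ← Real.exp_mul] at h2
    refine h2.trans ?_
    have h3 : Real.exp (-(θ * L) * δ) = Real.exp (-(θ * δ * L)) := by congr 1; ring
    have h4 : Real.exp (P * (θ * L) + -(κ * m)) ≤ Real.exp (-(θ * δ * L)) := by
      refine Real.exp_le_exp.2 ?_
      have h5 : κ * (c * θ * L) ≤ κ * m := mul_le_mul_of_nonneg_left hm hκ.le
      have h6 : κ * (c * θ * L) = P * (θ * L) + θ * δ * L := by
        calc κ * (c * θ * L) = κ * c * (θ * L) := by ring
          _ = _ := by rw [hcκ]; ring
      linarith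
    rw [h3]
    calc C₁ * (Real.exp (-(θ * δ * L)) + Real.exp (P * (θ * L) + -(κ * m))) ≤
        C₁ * (Real.exp (-(θ * δ * L)) + Real.exp (-(θ * δ * L))) :=
          mul_le_mul_of_nonneg_left (add_le_add_right h4 _) hC.le
      _ = _ := by ring
  have hexp0 : 0 < Real.exp (θ * δ * (16 * c * θ)) := Real.exp_pos _
  refine ⟨2 * C₁ + Real.exp (θ * δ * (16 * c * θ)), θ * δ, by positivity, by positivity, ?_⟩
  intro m s hm hs hs1
  obtain ⟨L, hL0, hL⟩ : ∃ L : ℝ, 0 ≤ L ∧ s = Real.exp (-L) :=
    ⟨-Real.log s, by have := Real.log_nonpos hs.le hs1; linarith, by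
      rw [neg_neg, Real.exp_log hs]⟩
  have hsγ : s ^ (θ * δ) = Real.exp (-(θ * δ * L)) := by
    rw [hL, ← Real.exp_mul]
    congr 1
    ring
  rw [hsγ]
  have hE : 0 < Real.exp (-(θ * δ * L)) := Real.exp_pos _
  have hθL : θ * L ≤ L := by
    have : θ ≤ 1 := by
      have h2 : θ * 1 ≤ θ * (1 + 2 * c * l) := mul_le_mul_of_nonneg_left (by
        have := mul_nonneg (mul_nonneg zero_le_two hc0.le) hl0
        linarith) hθ0.le
      linarith
    calc θ * L ≤ 1 * L := mul_le_mul_of_nonneg_right this hL0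
      _ = L := one_mul L
  by_cases hLs : L < 16 * c * θ
  · -- large distances
    have h2 : ret g μ m s ≤ 1 := by
      unfold ret
      exact measureReal_le_one
    have h3 : 1 ≤ Real.exp (θ * δ * (16 * c * θ)) * Real.exp (-(θ * δ * L)) := by
      rw [← Real.exp_add]
      refine Real.one_le_exp ?_
      have : θ * δ * L ≤ θ * δ * (16 * c * θ) := mul_le_mul_of_nonneg_left hLs.le (by positivity)
      linarith
    have h4 : 0 ≤ 2 * C₁ * Real.exp (-(θ * δ * L)) := by positivity
    rw [add_mul]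
    linarith
  push Not at hLs
  have main : ret g μ m s ≤ 2 * C₁ * Real.exp (-(θ * δ * L)) := by
    by_cases hmT : c * θ * L ≤ m
    · refine (ret_mono g m ?_).trans (late L m hL0 hmT)
      rw [hL]
      exact Real.exp_le_exp.2 (by linarith)
    · push Not at hmT
      obtain ⟨T, hT⟩ : ∃ T : ℝ, T = c * θ * L := ⟨_, rfl⟩
      rw [← hT] at hmT
      have hm1 : (1 : ℝ) ≤ m := by exact_mod_cast hm
      have hm0 : (0 : ℝ) < m := by linarith
      have hT0 : 0 < T := by linarith
      obtain ⟨j, hj⟩ : ∃ j : ℕ, j = ⌈T / m⌉₊ := ⟨_, rfl⟩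
      have hj1 : T ≤ m * j := by
        have := Nat.le_ceil (T / m)
        rw [← hj, div_le_iff₀ hm0] at this
        linarith
      have hj2 : (m : ℝ) * j ≤ 2 * T := by
        have := Nat.ceil_lt_add_one (div_pos hT0 hm0).le
        rw [← hj] at this
        have h2 : (m : ℝ) * j ≤ m * (T / m + 1) := mul_le_mul_of_nonneg_left this.le hm0.le
        have h3 : (m : ℝ) * (T / m + 1) = T + m := by field_simp
        linarith
      have hj0 : (0 : ℝ) ≤ j := Nat.cast_nonneg _
      have hj3 : (j : ℝ) ≤ 2 * T := by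
        have : (1 : ℝ) * j ≤ m * j := mul_le_mul_of_nonneg_right hm1 hj0
        linarith
      have h2 : (j : ℝ) * Λ' ^ (m * j) * s ≤ Real.exp (-(θ * L)) := by
        have h3 : Λ' ^ (m * j) ≤ Real.exp (2 * T * l) := by
          rw [hl, ← Real.exp_nat_mul]
          refine Real.exp_le_exp.2 ?_
          push_cast
          exact mul_le_mul_of_nonneg_right hj2 hl0
        have h4 : 2 * T ≤ Real.exp (L / 2) := by
          have h5 := Real.quadratic_le_exp_of_nonneg (show 0 ≤ L / 2 by linarith)
          have h6 : 16 * c * θ * L ≤ L * L := mul_le_mul_of_nonneg_right hLs hL0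
          rw [hT]
          nlinarith
        calc (j : ℝ) * Λ' ^ (m * j) * s ≤ 2 * T * Real.exp (2 * T * l) * s := by
              refine mul_le_mul_of_nonneg_right ?_ hs.le
              refine mul_le_mul hj3 h3 ?_ (by linarith)
              rw [hl]
              positivity
          _ ≤ Real.exp (L / 2) * Real.exp (2 * T * l) * s := by
              refine mul_le_mul_of_nonneg_right ?_ hs.le
              exact mul_le_mul_of_nonneg_right h4 (Real.exp_pos _).le
          _ = Real.exp (-(θ * L)) := by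
              rw [hL, ← Real.exp_add, ← Real.exp_add, hT]
              congr 1
              linear_combination L * hθ1
      have h7 := (R23.ret_mul (μ := μ) h1 hg' m hs.le j).trans (ret_mono g (m * j) h2)
      refine h7.trans (late L (m * j) hL0 ?_)
      push_cast
      rw [← hT]
      exact hj1
  refine main.trans ?_
  rw [add_mul]
  have : 0 < Real.exp (θ * δ * (16 * c * θ)) * Real.exp (-(θ * δ * L)) := mul_pos hexp0 hE
  linarith

end Pool.Agent.N813.OE.R4
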