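import Pool.Agent.N813.OE.Asm
import Pool.Agent.N813.OE.LOC
import Pool.Agent.N813.OE.GLOB
import Pool.Agent.N813.OE.R4
import Pool.Agent.N813.OE.M33
import Pool.Agent.N813.OE.CNT

/-!
# Project OE: main theorem
-/

set_option autoImplicit false

open scoped Manifold ContDiff Topology
open MeasureTheory Filter Set Metric

universe u

namespace Pool.Agent.N813.OE

open Pool.Agent.H718R2.G Pool.Agent.W564.SC Pool.Agent.N813.EM Pool.Agent.Y368.CL
  Pool.Agent.TH80.OMS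

theorem closeReturns {n : ℕ}
    {N : Type u} [MetricSpace N] [CompactSpace N] [MeasurableSpace N] [BorelSpace N]
    [ChartedSpace (V n) N] [IsManifold (𝓡 n) ∞ N] (hN : ChartLip n N) {r : ℕ∞} (hr : 1 ≤ r)
    (F : DiffM n N r) (hF : OmegaStable n N r F) :
    (∃ k : ℕ, 1 ≤ k ∧ (k : ℕ∞) ≤ r ∧ ∃ κ : ℝ, 0 < κ ∧ ClosesUp F k κ) ∧
    (∀ (μ : Measure N) (z : N), MixMeas F μ z → z ∈ closure (Per F)) ∧
    (∀ μ : Measure N, IsProbabilityMeasure μ → MeasurePreserving F μ μ → Frost μ → ExpMix1 F μ →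
      ∃ c : ℝ, 0 < c ∧ ∀ z : N, InSupp μ z → ∀ η : ℝ, 0 < η →
        ∀ᶠ j : ℕ in atTop, Real.exp (c * j) ≤ ((PerLe F j ∩ ball z η).ncard : ℝ)) :=
  main R4.t M33.t (GLOB.t LOC.t) CNT.t hN hr F hF

end Pool.Agent.N813.OE
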