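import Pool.Agent.N813.OE.Stm
import Pool.Agent.N813.EM.MainF

/-!
# Quantitative form of the polynomially close returns
-/

set_option autoImplicit false

open MeasureTheory Filter Set Metric
open scoped Topology

universe v

noncomputable section

namespace Pool.Agent.N813.OE.POLY2

open Pool.Agent.N813.EM

/-- `log X` is small compared to `X`. -/
theorem log_small (T : ℝ) : ∃ X₀ : ℝ, 16 ≤ X₀ ∧ ∀ X : ℝ, X₀ ≤ X → 1 ≤ Real.log X ∧
    T * Real.log X ≤ X := by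
  have h1 : ∀ᶠ X : ℝ in atTop, 1 ≤ Real.log X := Real.tendsto_log_atTop.eventually_ge_atTop 1
  have h2 : ∀ᶠ X : ℝ in atTop, T * Real.log X ≤ X := by
    have h3 := Real.isLittleO_log_id_atTop.bound (c := 1 / (|T| + 1)) (by positivity)
    filter_upwards [h3, h1, eventually_ge_atTop (0 : ℝ)] with X h4 h5 h6
    rw [Real.norm_eq_abs, abs_of_nonneg (by linarith), id, Real.norm_eq_abs, abs_of_nonneg h6,
      one_div_mul_eq_div, le_div_iff₀ (by positivity)] at h4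
    have h7 : T * Real.log X ≤ (|T| + 1) * Real.log X := by
      apply mul_le_mul_of_nonneg_right _ (by linarith)
      linarith [le_abs_self T]
    linarith
  obtain ⟨X₀, h⟩ := eventually_atTop.1 (h1.and h2)
  exact ⟨max X₀ 16, le_max_right _ _, fun X hX => h X ((le_max_left _ _).trans hX)⟩

theorem t : S_POLY2.{v} := by
  intro B _ _ _ μ _ g hbl hμ hfin hfr Cm κ q hCm hκ h2 h3 hsm A Q
  obtain ⟨Λ0, hΛ0⟩ := hbl
  obtain ⟨Λ, hΛ⟩ : ∃ Λ, Λ = max Λ0 1 := ⟨_, rfl⟩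
  have hΛ1 : 1 ≤ Λ := by rw [hΛ]; exact le_max_right _ _
  have hΛ2 : Λ0 ≤ Λ := by rw [hΛ]; exact le_max_left _ _
  have hΛpos : 0 < Λ := by linarith
  have hg : ∀ x y, dist (g x) (g y) ≤ Λ * dist x y := fun x y =>
    (hΛ0 x y).1.trans (mul_le_mul_of_nonneg_right hΛ2 dist_nonneg)
  have hg' : ∀ x y, dist (g.symm x) (g.symm y) ≤ Λ * dist x y := by
    intro x y
    have h1 := (hΛ0 (g.symm x) (g.symm y)).2
    rw [g.apply_symm_apply, g.apply_symm_apply] at h1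
    exact h1.trans (mul_le_mul_of_nonneg_right hΛ2 dist_nonneg)
  obtain ⟨Cn, D, hCn, hnet⟩ := NET.t B hfin
  obtain ⟨C0', δ, hδ, hfr'⟩ := hfr
  obtain ⟨C0, hC0e⟩ : ∃ C0, C0 = max C0' 0 := ⟨_, rfl⟩
  have hC0 : 0 ≤ C0 := by rw [hC0e]; exact le_max_right _ _
  have hfr : ∀ (b : B) (s : ℝ), 0 < s → μ.real (closedBall b s) ≤ C0 * s ^ δ := by
    intro b s hs
    refine (hfr' b s hs).trans ?_
    apply mul_le_mul_of_nonneg_right _ (Real.rpow_nonneg hs.le _)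
    rw [hC0e]; exact le_max_left _ _
  obtain ⟨CR, γ, hCR, hγ, hret⟩ := hsm
  obtain ⟨A', hA'⟩ : ∃ A' : ℕ, A' = A + 2 := ⟨_, rfl⟩
  -- the exponent of the scale
  obtain ⟨K, hK1, hKγ, hKδ⟩ : ∃ K : ℕ, 1 ≤ K ∧ (Q : ℝ) + 1 ≤ K * γ ∧ 1 ≤ K * δ := by
    refine ⟨⌈((Q : ℝ) + 1) / γ⌉₊ + ⌈1 / δ⌉₊ + 1, by omega, ?_, ?_⟩
    · have h1 := Nat.le_ceil (((Q : ℝ) + 1) / γ)
      rw [div_le_iff₀ hγ] at h1
      push_cast
      have h4 : 0 ≤ ((⌈1 / δ⌉₊ : ℝ) + 1) * γ := by positivity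
      linarith
    · have h1 := Nat.le_ceil (1 / δ)
      rw [div_le_iff₀ hδ] at h1
      push_cast
      have h4 : 0 ≤ ((⌈((Q : ℝ) + 1) / γ⌉₊ : ℝ) + 1) * δ := by positivity
      linarith
  obtain ⟨En, hEn⟩ : ∃ En : ℕ, En = K * A' * (D + 1) * q + 2 * Q + 2 * (K * A' * D) + 1 := ⟨_, rfl⟩
  have hEpos : (0 : ℝ) < En := by
    have : 0 < En := by omega
    exact_mod_cast this
  have hlam : 0 ≤ Real.log Λ := Real.log_nonneg hΛ1
  obtain ⟨a, ha⟩ : ∃ a : ℝ, a = (q * Real.log Λ * (En / κ) + En) / κ := ⟨_, rfl⟩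
  have haE : En / κ ≤ a := by
    rw [ha]
    apply div_le_div_of_nonneg_right _ hκ.le
    have : 0 ≤ q * Real.log Λ * (En / κ) := by positivity
    linarith
  have ha0 : 0 < a := lt_of_lt_of_le (by positivity) haE
  obtain ⟨K₁, hK₁⟩ : ∃ K₁ : ℝ, K₁ = 32 * CR * 4 ^ γ := ⟨_, rfl⟩
  obtain ⟨K₂, hK₂⟩ : ∃ K₂ : ℝ, K₂ = 8 * C0 * 3 ^ δ := ⟨_, rfl⟩
  obtain ⟨K₃, hK₃⟩ : ∃ K₃ : ℝ, K₃ = 64 * Cm * (2 * Cn) ^ q * Cn ^ 2 := ⟨_, rfl⟩
  have hK₁0 : 0 ≤ K₁ := by rw [hK₁]; positivity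
  have hK₂0 : 0 ≤ K₂ := by rw [hK₂]; positivity
  have hK₃0 : 0 ≤ K₃ := by rw [hK₃]; positivity
  obtain ⟨T, hT⟩ : ∃ T : ℝ, T = (K₁ + K₂ + K₃ + 1) * (a + 3) := ⟨_, rfl⟩
  obtain ⟨X₀, hX₀, hlog⟩ := log_small T
  refine ⟨a + 2, 1 / X₀, by positivity, by positivity, fun s b hs hss hb => ?_⟩
  obtain ⟨X, hX⟩ : ∃ X : ℝ, X = 1 / s := ⟨_, rfl⟩
  have hXs : s = 1 / X := by rw [hX, one_div_one_div]
  have hXX : X₀ ≤ X := by
    rw [hX, le_div_iff₀ hs]
    rw [le_div_iff₀ (by linarith)] at hss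
    linarith
  obtain ⟨hl1, hl2⟩ := hlog X hXX
  have hX16 : 16 ≤ X := by linarith
  have hX0 : 0 < X := by linarith
  have hX2 : 1 ≤ X := by linarith
  obtain ⟨G, hG⟩ : ∃ G : ℕ, G = ⌊En * Real.log X / κ⌋₊ := ⟨_, rfl⟩
  obtain ⟨n, hn⟩ : ∃ n : ℕ, n = ⌈a * Real.log X⌉₊ + 1 := ⟨_, rfl⟩
  have hn1 : 1 ≤ n := by omega
  have hna : a * Real.log X ≤ n := by
    rw [hn]; push_cast
    have := Nat.le_ceil (a * Real.log X)
    linarith
  have hnb : (n : ℝ) ≤ a * Real.log X + 2 := by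
    rw [hn]; push_cast
    have := Nat.ceil_lt_add_one (show 0 ≤ a * Real.log X by positivity)
    linarith
  have hG1 : (G : ℝ) ≤ En / κ * Real.log X := by
    rw [hG]
    refine (Nat.floor_le (by positivity)).trans (le_of_eq (by ring))
  have hG2 : En * Real.log X ≤ κ * ((G : ℝ) + 1) := by
    rw [hG]
    have := (Nat.lt_floor_add_one (En * Real.log X / κ)).le
    rw [div_le_iff₀ hκ] at this
    linarith
  have hnG : q * Real.log Λ * G + En * Real.log X ≤ κ * n := by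
    have e1 : q * Real.log Λ * G ≤ q * Real.log Λ * (En / κ * Real.log X) :=
      mul_le_mul_of_nonneg_left hG1 (by positivity)
    have e2 : κ * (a * Real.log X) ≤ κ * n := mul_le_mul_of_nonneg_left hna hκ.le
    have e3 : κ * (a * Real.log X) = q * Real.log Λ * (En / κ * Real.log X) + En * Real.log X := by
      rw [ha]
      field_simp
    linarith
  -- everything is small compared to `X`
  have hnX : (K₁ + K₂ + K₃ + 1) * ((n : ℝ) + 1) ≤ X := by
    refine le_trans ?_ hl2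
    rw [hT, mul_assoc]
    apply mul_le_mul_of_nonneg_left _ (by positivity)
    nlinarith
  have hn0 : (0 : ℝ) ≤ n := Nat.cast_nonneg n
  have hbd1 : K₁ * n ≤ X := by nlinarith
  have hbd2 : K₂ * n ≤ X := by nlinarith
  have hbd3 : K₃ * ((n : ℝ) + 1) < X := by nlinarith
  have hGn : (G : ℝ) ≤ n := by
    refine hG1.trans (le_trans ?_ hna)
    exact mul_le_mul_of_nonneg_right haE (by linarith)
  -- the scales
  obtain ⟨ρ, hρ⟩ : ∃ ρ : ℝ, ρ = 1 / X ^ K := ⟨_, rfl⟩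
  have hρ0 : 0 < ρ := by rw [hρ]; positivity
  have hρX : 1 / ρ = X ^ K := by rw [hρ, one_div_one_div]
  have hXK : X ≤ X ^ K := le_self_pow₀ hX2 (by omega)
  have hρs : ρ ≤ s := by
    rw [hρ, hXs]
    exact one_div_le_one_div_of_le hX0 hXK
  have hs16 : s ≤ 1 / 16 := by
    rw [hXs]
    exact one_div_le_one_div_of_le (by norm_num) hX16
  have hρ16 : ρ ≤ 1 / 16 := hρs.trans hs16
  obtain ⟨σ, hσ⟩ : ∃ σ : ℝ, σ = ρ ^ A' := ⟨_, rfl⟩
  have hσ0 : 0 < σ := by rw [hσ]; positivity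
  have hσX : 1 / σ = X ^ (K * A') := by rw [hσ, hρ, one_div_pow, one_div_one_div, ← pow_mul]
  have hσρA : 4 * σ ≤ ρ ^ A := by
    rw [hσ, hA', pow_add]
    have h1 : 0 < ρ ^ A := by positivity
    have h5 : ρ ^ 2 ≤ 1 / 4 := by
      calc ρ ^ 2 ≤ (1 / 16) ^ 2 := pow_le_pow_left₀ hρ0.le hρ16 2
        _ ≤ 1 / 4 := by norm_num
    calc 4 * (ρ ^ A * ρ ^ 2) = ρ ^ A * (4 * ρ ^ 2) := by ring
      _ ≤ ρ ^ A * 1 := mul_le_mul_of_nonneg_left (by linarith) h1.le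
      _ = ρ ^ A := mul_one _
  have hσρ4 : 4 * σ ≤ ρ := by
    rw [hσ, hA', show A + 2 = (A + 1) + 1 by ring, pow_succ]
    have h1 : ρ ^ (A + 1) ≤ 1 / 4 := by
      calc ρ ^ (A + 1) ≤ ρ ^ 1 := pow_le_pow_of_le_one hρ0.le (by linarith) (by omega)
        _ ≤ 1 / 4 := by rw [pow_one]; linarith
    calc 4 * (ρ ^ (A + 1) * ρ) = (4 * ρ ^ (A + 1)) * ρ := by ring
      _ ≤ 1 * ρ := mul_le_mul_of_nonneg_right (by linarith) hρ0.le
      _ = ρ := one_mul _
  have hσρ : 2 * σ ≤ ρ := by linarith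
  have hσ1 : σ ≤ 1 := by linarith
  obtain ⟨t, φ, hN⟩ := hnet σ hσ0 hσ1
  have hm₀pos : 0 < s ^ Q := by positivity
  have hRG : ∑ m ∈ Finset.Icc 1 G, ret g μ m (4 * ρ) ≤ s ^ Q / 32 := by
    have e1 : ∀ m ∈ Finset.Icc 1 G, ret g μ m (4 * ρ) ≤ CR * (4 * ρ) ^ γ := by
      intro m hm
      exact hret m (4 * ρ) (Finset.mem_Icc.1 hm).1 (by positivity) (by linarith)
    refine (Finset.sum_le_sum e1).trans ?_
    rw [Finset.sum_const, Nat.card_Icc, nsmul_eq_mul, Nat.add_sub_cancel]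
    have e2 : (4 * ρ) ^ γ ≤ 4 ^ γ * (s ^ Q * s) := by
      rw [Real.mul_rpow (by norm_num) hρ0.le]
      apply mul_le_mul_of_nonneg_left _ (by positivity)
      have e3 : ρ = s ^ K := by rw [hρ, hXs, one_div_pow]
      rw [e3, ← Real.rpow_natCast s K, ← Real.rpow_mul hs.le, ← pow_succ, ← Real.rpow_natCast s (Q + 1)]
      apply Real.rpow_le_rpow_of_exponent_ge hs (by linarith)
      push_cast
      exact hKγ
    calc (G : ℝ) * (CR * (4 * ρ) ^ γ) ≤ n * (CR * (4 ^ γ * (s ^ Q * s))) := by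
          apply mul_le_mul hGn _ (by positivity) hn0
          exact mul_le_mul_of_nonneg_left e2 hCR.le
      _ = K₁ * n * s * s ^ Q / 32 := by rw [hK₁]; ring
      _ ≤ 1 * s ^ Q / 32 := by
          apply div_le_div_of_nonneg_right _ (by norm_num)
          apply mul_le_mul_of_nonneg_right _ hm₀pos.le
          rw [hXs, mul_one_div, div_le_one hX0]
          exact hbd1
      _ = s ^ Q / 32 := by rw [one_mul]
  obtain ⟨c, hct, hcb, hmc, hP⟩ := CELL.t B μ g g.symm g.continuous g.symm.continuous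
    (fun x => g.symm_apply_apply x) hμ Cn D σ ρ t φ hCn hσ0 hρ0 hσρ hN b s (s ^ Q) G hm₀pos
    hb hRG
  obtain ⟨hN1, hN2, hN3, hN4⟩ := hN
  obtain ⟨L, hL⟩ : ∃ L : ℝ, L = Cn * X ^ (K * A' * (D + 1)) := ⟨_, rfl⟩
  have hXA : X ^ K ≤ X ^ (K * A' * (D + 1)) := by
    apply pow_le_pow_right₀ hX2
    rw [mul_assoc]
    exact Nat.le_mul_of_pos_right K (by rw [hA']; positivity)
  have hL1 : X ^ K ≤ L := by
    rw [hL]
    have : 0 < X ^ (K * A' * (D + 1)) := by positivity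
    nlinarith
  have hLX : 1 ≤ L := by linarith
  have hLφ : Obs L (φ c) := by
    have h1 := hN2 c hct
    rwa [hσX, ← pow_mul, ← hL] at h1
  have hLψ : Obs L (cone c ρ 3) := by
    apply (obs_cone c hρ0 3).mono
    rw [hρX]
    exact hL1
  obtain ⟨Y, hY⟩ : ∃ Y : ℝ, Y = Real.exp (-((En : ℝ) * Real.log X)) := ⟨_, rfl⟩
  have hYX : Y = 1 / X ^ En := by
    rw [hY, Real.exp_neg, one_div, ← Real.log_pow, Real.exp_log (by positivity)]
  have hY0 : 0 < Y := by rw [hY]; exact Real.exp_pos _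
  have hCm0 : 0 < Cm := by linarith
  have hL0 : 0 < L := by linarith
  have hErr : Cm * (2 * L * Λ ^ G) ^ q * Real.exp (-(κ * (n : ℝ) ^ (1 : ℝ))) +
        Cm * L ^ q * Real.exp (-(κ * ((G : ℝ) + 1) ^ (1 : ℝ))) ≤ 2 * Cm * (2 * L) ^ q * Y := by
    rw [Real.rpow_one, Real.rpow_one]
    have e1 : (2 * L * Λ ^ G) ^ q = (2 * L) ^ q * Real.exp (q * Real.log Λ * G) := by
      rw [mul_pow]
      congr 1
      rw [← pow_mul]
      have h1 : Real.exp (q * Real.log Λ * G) = Real.exp (Real.log (Λ ^ (G * q))) := by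
        rw [Real.log_pow]
        congr 1
        push_cast
        ring
      rw [h1, Real.exp_log (by positivity)]
    have e2 : Cm * (2 * L * Λ ^ G) ^ q * Real.exp (-(κ * (n : ℝ))) ≤ Cm * (2 * L) ^ q * Y := by
      rw [e1]
      have h1 : Cm * ((2 * L) ^ q * Real.exp (q * Real.log Λ * G)) *
          Real.exp (-(κ * (n : ℝ))) = Cm * (2 * L) ^ q *
          Real.exp (q * Real.log Λ * G + -(κ * (n : ℝ))) := by
        rw [Real.exp_add]
        ring
      rw [h1]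
      apply mul_le_mul_of_nonneg_left
      · rw [hY]
        apply Real.exp_le_exp.2
        linarith
      · positivity
    have e3 : Cm * L ^ q * Real.exp (-(κ * ((G : ℝ) + 1))) ≤ Cm * (2 * L) ^ q * Y := by
      apply mul_le_mul
      · apply mul_le_mul_of_nonneg_left
        · apply pow_le_pow_left₀ (by linarith)
          linarith
        · linarith
      · rw [hY]
        apply Real.exp_le_exp.2
        linarith
      · exact (Real.exp_pos _).le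
      · positivity
    linarith
  have hψ : n * (∫ x, cone c ρ 3 x ∂μ) ≤ 1 / 8 := by
    have h1 : ∫ x, cone c ρ 3 x ∂μ ≤ C0 * (3 * ρ) ^ δ := by
      refine (hLψ.integral_le (S := closedBall c (3 * ρ)) isClosed_closedBall ?_).trans
        (hfr c (3 * ρ) (by positivity))
      intro x hx
      exact mem_closedBall.2 (cone_ne_zero hρ0 hx).le
    have h4 : (3 * ρ) ^ δ ≤ 3 ^ δ * s := by
      rw [Real.mul_rpow (by norm_num) hρ0.le]
      apply mul_le_mul_of_nonneg_left _ (by positivity)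
      have e3 : ρ = s ^ K := by rw [hρ, hXs, one_div_pow]
      rw [e3, ← Real.rpow_natCast s K, ← Real.rpow_mul hs.le]
      calc s ^ ((K : ℝ) * δ) ≤ s ^ (1 : ℝ) :=
            Real.rpow_le_rpow_of_exponent_ge hs (by linarith) hKδ
        _ = s := Real.rpow_one s
    calc n * (∫ x, cone c ρ 3 x ∂μ) ≤ n * (C0 * (3 ^ δ * s)) := by
          apply mul_le_mul_of_nonneg_left _ hn0
          exact h1.trans (mul_le_mul_of_nonneg_left h4 hC0)
      _ = K₂ * n * s / 8 := by rw [hK₂]; ring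
      _ ≤ 1 / 8 := by
          apply div_le_div_of_nonneg_right _ (by norm_num)
          rw [hXs, mul_one_div, div_le_one hX0]
          exact hbd2
  have hfin : (n + 1) * (2 * Cm * (2 * L) ^ q * Y) < (∫ x, φ c x ∂μ) ^ 2 / 2 := by
    obtain ⟨W, hW⟩ : ∃ W : ℝ, W = X ^ (K * A' * D) := ⟨_, rfl⟩
    have hW0 : 0 < W := by rw [hW]; positivity
    have h1 : s ^ Q / (4 * (Cn * W)) ≤ ∫ x, φ c x ∂μ := by
      rw [hW, pow_mul, ← hσX]
      exact hmc
    have h4 : 0 < s ^ Q / (4 * (Cn * W)) := by positivity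
    have h5 : (s ^ Q / (4 * (Cn * W))) ^ 2 ≤ (∫ x, φ c x ∂μ) ^ 2 := pow_le_pow_left₀ h4.le h1 2
    have h6 : (n + 1) * (2 * Cm * (2 * L) ^ q * Y) =
        (K₃ * ((n : ℝ) + 1) / X) * ((s ^ Q / (4 * (Cn * W))) ^ 2 / 2) := by
      rw [hYX, hL, hEn, hW, hK₃, hXs]
      rw [show 2 * (Cn * X ^ (K * A' * (D + 1))) = (2 * Cn) * X ^ (K * A' * (D + 1)) by ring,
        mul_pow, ← pow_mul X (K * A' * (D + 1)) q, one_div_pow, pow_succ, pow_add, pow_add,
        show 2 * (K * A' * D) = K * A' * D * 2 by ring, pow_mul X (K * A' * D) 2,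
        show 2 * Q = Q * 2 by ring, pow_mul X Q 2]
      field_simp
      ring
    refine lt_of_lt_of_le ?_ (div_le_div_of_nonneg_right h5 two_pos.le)
    rw [h6]
    have h7 : K₃ * ((n : ℝ) + 1) / X < 1 := (div_lt_one hX0).2 hbd3
    have h8 : 0 < (s ^ Q / (4 * (Cn * W))) ^ 2 / 2 := by positivity
    calc _ < 1 * ((s ^ Q / (4 * (Cn * W))) ^ 2 / 2) := mul_lt_mul_of_pos_right h7 h8
      _ = _ := one_mul _
  obtain ⟨z, hz1, hz2, hz3⟩ := Pool.Agent.N738.EM.MID.t B μ g g.symm Λ hΛ1 hg hg'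
    (fun x => g.symm_apply_apply x) hμ
    Cm κ 1 q hCm hκ one_pos h2 h3 L (φ c) (cone c ρ 3) n G (2 * Cm * (2 * L) ^ q * Y) hLX hLφ
    hLψ hn1 hErr hP hψ hfin
  have hd1 : dist z c < 2 * σ := hN4 c hct z hz1
  have hd2 : dist (g^[n] z) c < 2 * σ := hN4 c hct _ hz2
  refine ⟨n, z, ρ, hn1, ?_, ?_, hρ0, hρs, ?_, ?_⟩
  · rw [← hX]
    linarith
  · have := dist_triangle z c b
    linarith
  · have h1 := dist_triangle_right (g^[n] z) z c
    linarith
  · intro i hi0 hin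
    have h1 : 2 * ρ < dist (g^[i] z) c := by
      by_contra hcon
      have h4 : cone c ρ 3 (g^[i] z) = 1 := cone_eq_one hρ0 (by linarith)
      have h5 := hz3 i hi0 hin
      linarith
    have h4 := dist_triangle (g^[i] z) z c
    linarith

end Pool.Agent.N813.OE.POLY2
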