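import Pool.Agent.N813.OE.Defs
import Pool.Agent.N813.EM.Stm

/-!
# Project OE: statements of the parts
-/

set_option autoImplicit false

open scoped Manifold ContDiff Topology
open MeasureTheory Filter Set Metric

universe u v

namespace Pool.Agent.N813.OE

open Pool.Agent.H718R2.G Pool.Agent.W564.SC Pool.Agent.N813.EM Pool.Agent.Y368.CL
  Pool.Agent.TH80.OMS

/-- LOC: close returns of `Ω`-stable diffeomorphisms, in a chart. -/
def S_LOC : Prop :=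
  ∀ (n : ℕ) (N : Type u) [TopologicalSpace N] [T2Space N] [CompactSpace N]
    [ChartedSpace (V n) N] [IsManifold (𝓡 n) ∞ N] (r : ℕ∞), 1 ≤ r → ∀ F : DiffM n N r,
    OmegaStable n N r F → ∀ (χ : OpenPartialHomeomorph N (V n)) (z₀ : N), GoodChart n N χ z₀ →
    ∃ k : ℕ, 1 ≤ k ∧ (k : ℕ∞) ≤ r ∧ ∃ κ : ℝ, 0 < κ ∧ ∀ (z : N) (ρ : ℝ) (m : ℕ), z ∈ χ.source →
      ‖χ z‖ < κ → 0 < ρ → ρ < κ → 1 ≤ m → F^[m] z ∈ χ.source →
      ‖χ (F^[m] z) - χ z‖ ≤ κ * ρ ^ k →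
      (∀ i, 0 < i → i < m → F^[i] z ∈ χ.source → 2 * ρ ≤ ‖χ (F^[i] z) - χ z‖) →
      ∃ x ∈ χ.source, ‖χ x - χ z‖ < 2 * ρ ∧ F^[m] x = x

/-- GLOB: the same with a compatible distance, uniformly on `N`. -/
def S_GLOB : Prop :=
  ∀ (n : ℕ) (N : Type u) [MetricSpace N] [CompactSpace N]
    [ChartedSpace (V n) N] [IsManifold (𝓡 n) ∞ N] (r : ℕ∞), 1 ≤ r → ChartLip n N →
    ∀ F : DiffM n N r, OmegaStable n N r F →
    ∃ k : ℕ, 1 ≤ k ∧ (k : ℕ∞) ≤ r ∧ ∃ κ : ℝ, 0 < κ ∧ ClosesUp F k κ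

/-- R4: the returns at all times have small measure. -/
def S_R4 : Prop :=
  ∀ (B : Type v) [MetricSpace B] [MeasurableSpace B] [BorelSpace B] (μ : Measure B)
    [IsProbabilityMeasure μ] (g : B → B) (Λ : ℝ), (∀ x y, dist (g x) (g y) ≤ Λ * dist x y) →
    ∀ (κ C₁ δ : ℝ) (P : ℕ), 0 < κ → 0 < δ → 0 < C₁ →
    (∀ (m : ℕ) (s : ℝ), 0 < s → s ≤ 1 →
      ret g μ m s ≤ C₁ * (s ^ δ + (1 / s) ^ P * Real.exp (-(κ * (m : ℝ) ^ (1 : ℝ))))) →
    SmallRet g μ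

/-- POLY2: quantitative polynomially close returns. -/
def S_POLY2 : Prop :=
  ∀ (B : Type v) [MetricSpace B] [MeasurableSpace B] [BorelSpace B] (μ : Measure B)
    [IsProbabilityMeasure μ] (g : B ≃ₜ B), BiLip g → MeasurePreserving g μ μ → FinDim B →
    Frost μ → ∀ (Cm κ : ℝ) (q : ℕ), 1 ≤ Cm → 0 < κ → M2 g μ Cm κ 1 q → M3 g μ Cm κ 1 q →
    SmallRet g μ → QuantClose g μ

/-- M33: mixing of order three implies mixing of order two (the exponent `β = 1` is kept). -/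
def S_M33 : Prop :=
  ∀ (B : Type v) [MetricSpace B] [MeasurableSpace B] [BorelSpace B] (μ : Measure B)
    [IsProbabilityMeasure μ] (g : B → B), Continuous g → ExpMix1 g μ →
    ∃ (C κ : ℝ) (q : ℕ), 1 ≤ C ∧ 0 < κ ∧ M2 g μ C κ 1 q ∧ M3 g μ C κ 1 q

/-- CNT: counting periodic points. -/
def S_CNT : Prop :=
  ∀ (B : Type v) [MetricSpace B] [MeasurableSpace B] [BorelSpace B] (μ : Measure B)
    [IsProbabilityMeasure μ] (g : B → B), FinDim B → Frost μ →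
    (∀ m : ℕ, 1 ≤ m → {x | g^[m] x = x}.Finite) → QuantPer g μ →
    ∃ c : ℝ, 0 < c ∧ ∀ z : B, InSupp μ z → ∀ η : ℝ, 0 < η →
      ∀ᶠ j : ℕ in atTop, Real.exp (c * j) ≤ ((PerLe g j ∩ ball z η).ncard : ℝ)

end Pool.Agent.N813.OE
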